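import Mathlib
import Pool.Agent.Helper617.RM.SeqCodes

/-!
Closure of a `Σ⁰₁` class of numbers under a `Σ⁰₁` rule with two premises, in a model of `RCA₀`.
-/

namespace Pool.Agent.T2H95.MS

open Pool.Agent.Helper617.RM

universe u

set_option linter.unusedSectionVars false
set_option linter.unusedVariables false

variable {N : L2Structure.{u}} [IsModelRCA0 N]

/-- `u` codes a derivation of length `n` -/
def ClS (B : N.M → Prop) (Q : N.M → N.M → N.M → Prop) (u n : N.M) : Prop :=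
  IsSq u n ∧ ∀ i, i < n → ∀ z, z < u → (¬ MemC (pr i z) u ∨ (B z ∨ ∃ j, j < i ∧ ∃ k, k < i ∧ ∃ a, a < u ∧ ∃ b, b < u ∧
    (MemC (pr j a) u ∧ (MemC (pr k b) u ∧ Q a b z))))

/-- the closure of `B` under the rule `Q` -/
def Cl (B : N.M → Prop) (Q : N.M → N.M → N.M → Prop) (x : N.M) : Prop :=
  ∃ u n i, ClS B Q u n ∧ MemC (pr i x) u

theorem Cl_S1 {B : Ctx N → N.M → Prop} (hB : S1 (fun w => B (tail w) (w 0))) {Q : N.M → N.M → N.M → Prop}
    (hQ : S1 (fun w : Ctx N => Q (w 0) (w 1) (w 2))) {t : Ctx N → N.M} (ht : Tm t) :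
    S1 (fun v => Cl (B v) Q (t v)) := by
  unfold Cl ClS
  refine S1.ex (S1.ex (S1.ex (S1.and (S1.and (IsSq_D0 (Tm.var 2) (Tm.var 1)).S1 ?_) ?_)))
  · refine S1.ball (Tm.var 1) (S1.ball (Tm.var 3) (S1.or ?_ (S1.or ?_ ?_)))
    · exact (MemC_D0 ((Tm.var 1).pr (Tm.var 0)) (Tm.var 4)).not.S1
    · -- the context is `z, i, index, n, u, v`
      exact S1.comp (R := fun w => B (tail w) (w 0)) hB
        (g := fun w => cons (w 0) (tail (tail (tail (tail (tail w))))))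
        (CM.cons (Tm.var 0) CM.tail.tail'.tail'.tail'.tail')
    · refine S1.bex (Tm.var 1) (S1.bex (Tm.var 2) (S1.bex (Tm.var 6) (S1.bex (Tm.var 7)
        (S1.and ?_ (S1.and ?_ ?_)))))
      · exact (MemC_D0 ((Tm.var 3).pr (Tm.var 1)) (Tm.var 8)).S1
      · exact (MemC_D0 ((Tm.var 2).pr (Tm.var 0)) (Tm.var 8)).S1
      · exact S1.comp (R := fun w : Ctx N => Q (w 0) (w 1) (w 2)) hQ
          (g := fun w => cons (w 1) (cons (w 0) (cons (w 4) w)))
          (CM.cons (Tm.var 1) (CM.cons (Tm.var 0) (CM.cons (Tm.var 4) CM.id)))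
  · exact (MemC_D0 ((Tm.var 0).pr ht.tail.tail.tail) (Tm.var 2)).S1

theorem Cl_S1' {B : N.M → Prop} (hB : S1 (fun v => B (v 0))) {Q : N.M → N.M → N.M → Prop}
    (hQ : S1 (fun w : Ctx N => Q (w 0) (w 1) (w 2))) : S1 (fun v => Cl B Q (v 0)) :=
  Cl_S1 (B := fun _ => B) hB hQ (Tm.var 0)

/-- induction along derivations -/
theorem Cl.ind {B : N.M → Prop} {Q : N.M → N.M → N.M → Prop} {S : N.M → Prop} (hS : S1 (fun v => S (v 0)))
    (h1 : ∀ x, B x → S x) (h2 : ∀ a b x, S a → S b → Q a b x → S x) {x : N.M} (hx : Cl B Q x) : S x := by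
  obtain ⟨u, n, i, ⟨hsq, h⟩, hi⟩ := hx
  have key : ∀ k, ∀ j, j < k → ∀ z, z < u → (¬ MemC (pr j z) u ∨ S z) := by
    intro k
    refine ind_S1 (P := fun k => ∀ j, j < k → ∀ z, z < u → (¬ MemC (pr j z) u ∨ S z)) ?_ ?_ ?_ k
    · refine S1.ball (Tm.var 0) (S1.ball (Tm.const u) (S1.or ?_ ?_))
      · exact (MemC_D0 ((Tm.var 1).pr (Tm.var 0)) (Tm.const u)).not.S1
      · exact hS
    · intro j hj
      exact absurd hj (not_lt_of_ge (zero_le' _))
    · intro k ih j hj z hz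
      by_cases hm : MemC (pr j z) u
      · right
        rcases h j (hsq.lt hm) z hz with h3 | h3 | ⟨j1, hj1, j2, hj2, a, ha, b, hb, m1, m2, hq⟩
        · exact absurd hm h3
        · exact h1 z h3
        · have hjk : j ≤ k := lt_add_one_iff'.1 hj
          have s1 := (ih j1 (lt_of_lt_of_le hj1 hjk) a ha).resolve_left (fun hn => hn m1)
          have s2 := (ih j2 (lt_of_lt_of_le hj2 hjk) b hb).resolve_left (fun hn => hn m2)
          exact h2 a b z s1 s2 hq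
      · exact Or.inl hm
  exact (key (i + 1) i (lt_add_one_iff'.2 le_rfl) x hi.snd_lt).resolve_left (fun hn => hn hi)

/-- concatenation -/
theorem exists_concat {u n u' m : N.M} (h : IsSq u n) (h' : IsSq u' m) :
    ∃ w, IsSq w (n + m) ∧ (∀ i z, MemC (pr i z) u → MemC (pr i z) w) ∧
      (∀ i z, MemC (pr i z) u' → MemC (pr (n + i) z) w) ∧
      ∀ i z, MemC (pr i z) w → MemC (pr i z) u ∨ ∃ j, i = n + j ∧ MemC (pr j z) u' := by
  obtain ⟨w, hw1, hw2⟩ := exists_isC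
    (P := fun r => MemC r u ∨ ∃ j, j < u' ∧ ∃ z, z < u' ∧ (MemC (pr j z) u' ∧ r = pr (n + j) z)) (by
      refine D0.or (MemC_D0 (Tm.var 0) (Tm.const u)) (D0.bex (Tm.const u') (D0.bex (Tm.const u') (D0.and ?_ ?_)))
      · exact MemC_D0 ((Tm.var 1).pr (Tm.var 0)) (Tm.const u')
      · exact D0.eq (Tm.var 2) (((Tm.const n).add (Tm.var 1)).pr (Tm.var 0)))
    (b := u + (pr (n + u') u' + 1)) (fun r hr => by
      rcases hr with hr | ⟨j, hj, z, hz, _, rfl⟩
      · exact lt_of_lt_of_le hr.lt (le_add_of_nonneg_right (zero_le' _))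
      · refine lt_of_lt_of_le ?_ (le_add_of_nonneg_left (zero_le' _))
        refine lt_add_one_iff'.2 (le_of_lt (pr_lt_pr ?_))
        exact add_lt_add (by gcongr) hz)
  have e1 : ∀ i z, MemC (pr i z) u → MemC (pr i z) w := fun i z hm => (hw2 _).2 (Or.inl hm)
  have e2 : ∀ i z, MemC (pr i z) u' → MemC (pr (n + i) z) w := fun i z hm =>
    (hw2 _).2 (Or.inr ⟨i, hm.fst_lt, z, hm.snd_lt, hm, rfl⟩)
  have e3 : ∀ i z, MemC (pr i z) w → MemC (pr i z) u ∨ ∃ j, i = n + j ∧ MemC (pr j z) u' := by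
    intro i z hm
    rcases (hw2 _).1 hm with hm | ⟨j, _, z', _, hm', e⟩
    · exact Or.inl hm
    · obtain ⟨ea, eb⟩ := pr_inj e
      subst ea
      subst eb
      exact Or.inr ⟨j, rfl, hm'⟩
  have hnot : ∀ j, ¬ n + j < n := fun j => not_lt_of_ge (le_add_of_nonneg_right (zero_le' _))
  refine ⟨w, isSq_of hw1 (fun r hr => ?_) (fun i hi => ?_) fun i z z' a b => ?_, e1, e2, e3⟩
  · rcases (hw2 r).1 hr with hm | ⟨j, _, z, _, hm, rfl⟩
    · obtain ⟨i, z, hi, rfl⟩ := h.mem hm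
      exact ⟨i, z, lt_of_lt_of_le hi (le_add_of_nonneg_right (zero_le' _)), rfl⟩
    · exact ⟨n + j, z, by have := h'.lt hm; gcongr, rfl⟩
  · by_cases hin : i < n
    · obtain ⟨z, hz⟩ := h.ex hin
      exact ⟨z, e1 _ _ hz⟩
    · obtain ⟨j, rfl⟩ := (le_iff_add' _ _).1 (not_lt.1 hin)
      obtain ⟨z, hz⟩ := h'.ex (lt_of_add_lt_add_left hi)
      exact ⟨z, e2 _ _ hz⟩
  · rcases e3 i z a with a1 | ⟨j, ej, a1⟩ <;> rcases e3 i z' b with b1 | ⟨j', e, b1⟩
    · exact h.fn a1 b1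
    · rw [e] at a1
      exact absurd (h.lt a1) (hnot _)
    · rw [ej] at b1
      exact absurd (h.lt b1) (hnot _)
    · rw [ej] at e
      rw [add_left_cancel e] at a1
      exact h'.fn a1 b1

/-- elements of the base -/
theorem Cl.base {B : N.M → Prop} {Q : N.M → N.M → N.M → Prop} {x : N.M} (hx : B x) : Cl B Q x := by
  obtain ⟨s, hs⟩ := exists_empty (N := N)
  obtain ⟨t, ht1, ht2, ht3⟩ := exists_app hs x
  refine ⟨t, 0 + 1, 0, ⟨ht1, fun i hi z hz => ?_⟩, ht3⟩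
  by_cases hm : MemC (pr i z) t
  · right
    left
    have hi0 : i = 0 := le_antisymm (by
      have := lt_add_one_iff'.1 hi
      exact this) (zero_le' _)
    rw [hi0] at hm
    rw [ht1.fn hm ht3]
    exact hx
  · exact Or.inl hm

/-- the closure is closed under the rule -/
theorem Cl.step {B : N.M → Prop} {Q : N.M → N.M → N.M → Prop} {a b x : N.M} (ha : Cl B Q a) (hb : Cl B Q b)
    (hq : Q a b x) : Cl B Q x := by
  obtain ⟨u, n, i, ⟨hu, hu2⟩, hi⟩ := ha
  obtain ⟨u', m, i', ⟨hu', hu2'⟩, hi'⟩ := hb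
  obtain ⟨w, hw, w1, w2, w3⟩ := exists_concat hu hu'
  obtain ⟨t, ht, htw, htx⟩ := exists_app hw x
  refine ⟨t, n + m + 1, n + m, ⟨ht, fun j hj z hz => ?_⟩, htx⟩
  by_cases hm : MemC (pr j z) t
  · right
    rcases lt_or_eq_of_le (lt_add_one_iff'.1 hj) with hj | rfl
    · -- an old line
      obtain ⟨z', hz'⟩ := hw.ex hj
      have e := ht.fn hm (htw.mem hz')
      subst e
      rcases w3 j z hz' with hm1 | ⟨k, rfl, hm1⟩
      · rcases hu2 j (hu.lt hm1) z hm1.snd_lt with h3 | h3 | ⟨j1, hj1, j2, hj2, a', _, b', _, m1, m2, hq'⟩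
        · exact absurd hm1 h3
        · exact Or.inl h3
        · have m1' := htw.mem (w1 _ _ m1)
          have m2' := htw.mem (w1 _ _ m2)
          exact Or.inr ⟨j1, hj1, j2, hj2, a', m1'.snd_lt, b', m2'.snd_lt, m1', m2', hq'⟩
      · rcases hu2' k (hu'.lt hm1) z hm1.snd_lt with h3 | h3 | ⟨j1, hj1, j2, hj2, a', _, b', _, m1, m2, hq'⟩
        · exact absurd hm1 h3
        · exact Or.inl h3
        · have m1' := htw.mem (w2 _ _ m1)
          have m2' := htw.mem (w2 _ _ m2)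
          exact Or.inr ⟨n + j1, by gcongr, n + j2, by gcongr, a', m1'.snd_lt, b', m2'.snd_lt, m1', m2', hq'⟩
    · -- the new line
      have e := ht.fn hm htx
      subst e
      have m1 := htw.mem (w1 _ _ hi)
      have m2 := htw.mem (w2 _ _ hi')
      exact Or.inr ⟨i, lt_of_lt_of_le (hu.lt hi) (le_add_of_nonneg_right (zero_le' _)), n + i', by
        have := hu'.lt hi'
        gcongr, a, m1.snd_lt, b, m2.snd_lt, m1, m2, hq⟩
  · exact Or.inl hm

/-- monotonicity in the base -/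
theorem Cl.mono {B B' : N.M → Prop} {Q : N.M → N.M → N.M → Prop} (h : ∀ x, B x → B' x) {x : N.M} (hx : Cl B Q x) :
    Cl B' Q x := by
  obtain ⟨u, n, i, ⟨hu, hu2⟩, hi⟩ := hx
  refine ⟨u, n, i, ⟨hu, fun j hj z hz => ?_⟩, hi⟩
  rcases hu2 j hj z hz with h1 | h1 | h1
  · exact Or.inl h1
  · exact Or.inr (Or.inl (h z h1))
  · exact Or.inr (Or.inr h1)

end Pool.Agent.T2H95.MS
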