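import Mathlib
import Pool.Agent.Helper617.RM.SeqCodes

/-!
Modal formulas coded by the numbers of a model of `RCA₀`.
-/

namespace Pool.Agent.T2H95.MS

open Pool.Agent.Helper617.RM

universe u

set_option linter.unusedSectionVars false
set_option linter.unusedVariables false

noncomputable section

variable {N : L2Structure.{u}} [IsModelRCA0 N]

/-- the propositional variable `p_i` -/
def pvar (i : N.M) : N.M := 4 * i + 1

/-- the propositional constant `c_i` -/
def pcst (i : N.M) : N.M := 4 * i + 2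

/-- the formula `□ a` -/
def box (a : N.M) : N.M := 4 * a + 3

/-- the formula `a → b`: this is `4 ⟨a, b⟩ + 4` with Cantor's bijective pairing `⟨a, b⟩ = (a + b) (a + b + 1) / 2 + a` -/
def imp (a b : N.M) : N.M := 2 * ((a + b) * (a + b + 1)) + 4 * a + 4

/-- `¬ a` is `a → ⊥`, where `⊥` is coded by `0` -/
def neg (a : N.M) : N.M := imp a 0

/-- `◇ a` is `¬ □ ¬ a` -/
def dia (a : N.M) : N.M := neg (box (neg a))

theorem Tm.box {t : Ctx N → N.M} (ht : Tm t) : Tm (fun v => box (t v)) :=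
  ((Tm.const 4).mul ht).add (Tm.const 3)

theorem Tm.imp {s t : Ctx N → N.M} (hs : Tm s) (ht : Tm t) : Tm (fun v => imp (s v) (t v)) :=
  (((Tm.const 2).mul ((hs.add ht).mul ((hs.add ht).add Tm.one))).add ((Tm.const 4).mul hs)).add (Tm.const 4)

theorem Tm.neg {t : Ctx N → N.M} (ht : Tm t) : Tm (fun v => neg (t v)) := Tm.imp ht Tm.zero

theorem Tm.dia {t : Ctx N → N.M} (ht : Tm t) : Tm (fun v => dia (t v)) := Tm.neg (Tm.box (Tm.neg ht))

theorem lt_box (a : N.M) : a < box a := by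
  rw [lt_iff_add'']
  exact ⟨3 * a + 2, by unfold box; ring⟩

theorem lt_imp_left (a b : N.M) : a < imp a b := by
  rw [lt_iff_add'']
  exact ⟨2 * ((a + b) * (a + b + 1)) + 3 * a + 3, by unfold imp; ring⟩

theorem lt_imp_right (a b : N.M) : b < imp a b := by
  rw [lt_iff_add'']
  exact ⟨2 * (a * a) + 4 * (a * b) + 2 * (b * b) + 2 * a + b + 4 * a + 3, by unfold imp; ring⟩

/-- every number is of the form `4 q + r`, `r = 0, 1, 2, 3` -/
theorem div4 (x : N.M) : ∃ q, x = 4 * q ∨ x = 4 * q + 1 ∨ x = 4 * q + 2 ∨ x = 4 * q + 3 := by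
  refine ind_S1 (P := fun x => ∃ q, x = 4 * q ∨ x = 4 * q + 1 ∨ x = 4 * q + 2 ∨ x = 4 * q + 3) ?_ ⟨0, by simp⟩ ?_ x
  · refine S1.ex (D0.S1 ?_)
    refine D0.or ?_ (D0.or ?_ (D0.or ?_ ?_))
    · exact D0.eq (Tm.var 1) ((Tm.const 4).mul (Tm.var 0))
    · exact D0.eq (Tm.var 1) (((Tm.const 4).mul (Tm.var 0)).add (Tm.const 1))
    · exact D0.eq (Tm.var 1) (((Tm.const 4).mul (Tm.var 0)).add (Tm.const 2))
    · exact D0.eq (Tm.var 1) (((Tm.const 4).mul (Tm.var 0)).add (Tm.const 3))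
  · rintro n ⟨q, h | h | h | h⟩
    · exact ⟨q, Or.inr (Or.inl (by rw [h]))⟩
    · exact ⟨q, Or.inr (Or.inr (Or.inl (by rw [h]; ring)))⟩
    · exact ⟨q, Or.inr (Or.inr (Or.inr (by rw [h]; ring)))⟩
    · exact ⟨q + 1, Or.inl (by rw [h]; ring)⟩

/-- Cantor's pairing is onto: every number `2 x` is `(a + b) (a + b + 1) + 2 a` -/
theorem cantor_surj (x : N.M) : ∃ a b, 2 * x = (a + b) * (a + b + 1) + 2 * a := by
  refine ind_S1 (P := fun x => ∃ a b, 2 * x = (a + b) * (a + b + 1) + 2 * a) ?_ ⟨0, 0, by simp⟩ ?_ x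
  · refine S1.ex (S1.ex (D0.S1 ?_))
    exact D0.eq ((Tm.const 2).mul (Tm.var 2)) ((((Tm.var 1).add (Tm.var 0)).mul
      (((Tm.var 1).add (Tm.var 0)).add Tm.one)).add ((Tm.const 2).mul (Tm.var 1)))
  · rintro n ⟨a, b, h⟩
    rcases eq_zero_or_succ b with rfl | ⟨b', rfl⟩
    · refine ⟨0, a + 1, ?_⟩
      rw [mul_add, h]
      ring
    · refine ⟨a + 1, b', ?_⟩
      rw [mul_add, h]
      ring

theorem cantor_lt {a b c d : N.M} (h : a + b < c + d) :
    (a + b) * (a + b + 1) + 2 * a < (c + d) * (c + d + 1) + 2 * c := by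
  obtain ⟨k, hk⟩ := (lt_iff_add'' _ _).1 h
  rw [hk]
  rw [lt_iff_add'']
  exact ⟨2 * k * a + (2 * k + 2) * b + k * k + 3 * k + 1 + 2 * c, by ring⟩

theorem two_mul_inj {a b : N.M} (h : 2 * a = 2 * b) : a = b := by
  rcases lt_trichotomy a b with h1 | h1 | h1
  · exact absurd h (ne_of_lt (mul_lt_mul_aux (by exact zero_lt_two) h1))
  · exact h1
  · exact absurd h.symm (ne_of_lt (mul_lt_mul_aux (by exact zero_lt_two) h1))

theorem four_mul_inj {a b : N.M} (h : 4 * a = 4 * b) : a = b := by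
  refine two_mul_inj (two_mul_inj ?_)
  calc 2 * (2 * a) = 4 * a := by ring
    _ = 4 * b := h
    _ = _ := by ring

theorem cantor_inj {a b c d : N.M} (h : (a + b) * (a + b + 1) + 2 * a = (c + d) * (c + d + 1) + 2 * c) :
    a = c ∧ b = d := by
  rcases lt_trichotomy (a + b) (c + d) with h1 | h1 | h1
  · exact absurd h (ne_of_lt (cantor_lt h1))
  · rw [h1] at h
    have h2 : a = c := two_mul_inj (add_left_cancel h)
    subst h2
    exact ⟨rfl, add_left_cancel h1⟩
  · exact absurd h.symm (ne_of_lt (cantor_lt h1))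

theorem imp_inj {a b c d : N.M} (h : imp a b = imp c d) : a = c ∧ b = d := by
  refine cantor_inj (two_mul_inj ?_)
  have h1 : 2 * ((a + b) * (a + b + 1)) + 4 * a = 2 * ((c + d) * (c + d + 1)) + 4 * c := add_right_cancel h
  calc 2 * ((a + b) * (a + b + 1) + 2 * a) = 2 * ((a + b) * (a + b + 1)) + 4 * a := by ring
    _ = 2 * ((c + d) * (c + d + 1)) + 4 * c := h1
    _ = _ := by ring

theorem box_inj {a b : N.M} (h : box a = box b) : a = b := four_mul_inj (add_right_cancel h)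

theorem pvar_inj {a b : N.M} (h : pvar a = pvar b) : a = b := four_mul_inj (add_right_cancel h)

theorem pcst_inj {a b : N.M} (h : pcst a = pcst b) : a = b := four_mul_inj (add_right_cancel h)

theorem even_prod (s : N.M) : ∃ w, s * (s + 1) = 2 * w := by
  refine ind_S1 (P := fun s => ∃ w, s * (s + 1) = 2 * w) ?_ ⟨0, by simp⟩ ?_ s
  · refine S1.ex (D0.S1 ?_)
    exact D0.eq ((Tm.var 1).mul ((Tm.var 1).add Tm.one)) ((Tm.const 2).mul (Tm.var 0))
  · rintro n ⟨w, h⟩
    refine ⟨w + n + 1, ?_⟩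
    calc (n + 1) * (n + 1 + 1) = n * (n + 1) + 2 * (n + 1) := by ring
      _ = 2 * (w + n + 1) := by rw [h]; ring

theorem imp_eq (a b : N.M) : ∃ q, imp a b = 4 * (q + 1) := by
  obtain ⟨w, hw⟩ := even_prod (a + b)
  exact ⟨w + a, by unfold imp; rw [hw]; ring⟩

/-- the remainders are unique -/
theorem mod4 {q q' r r' : N.M} (hr : r < 4) (hr' : r' < 4) (h : 4 * q + r = 4 * q' + r') : r = r' := by
  have key : ∀ {q q' r r' : N.M}, r < 4 → q < q' → 4 * q + r < 4 * q' + r' := by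
    intro q q' r r' hr hq
    obtain ⟨k, rfl⟩ := (lt_iff_add'' _ _).1 hq
    obtain ⟨l, hl⟩ := (lt_iff_add'' _ _).1 hr
    rw [lt_iff_add'']
    refine ⟨4 * k + l + r', ?_⟩
    calc 4 * (q + k + 1) + r' = 4 * q + 4 * k + 4 + r' := by ring
      _ = 4 * q + 4 * k + (r + l + 1) + r' := by rw [← hl]
      _ = _ := by ring
  rcases lt_trichotomy q q' with h1 | h1 | h1
  · exact absurd h (ne_of_lt (key hr h1))
  · rw [h1] at h
    exact add_left_cancel h
  · exact absurd h.symm (ne_of_lt (key hr' h1))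

/-- Unique readability: every number is the code of exactly one formula, which is `⊥`, a variable, a constant, `□ a`
or `a → b`; the components are unique. -/
theorem readable (x : N.M) : (x = 0 ∨ (∃ i, x = pvar i) ∨ (∃ i, x = pcst i) ∨ (∃ a, x = box a) ∨ ∃ a b, x = imp a b) := by
  obtain ⟨q, h | h | h | h⟩ := div4 x
  · rcases eq_zero_or_succ q with h0 | ⟨k, h0⟩
    · left
      rw [h, h0, mul_zero]
    · obtain ⟨a, b, hab⟩ := cantor_surj k
      refine Or.inr (Or.inr (Or.inr (Or.inr ⟨a, b, ?_⟩)))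
      rw [h, h0]
      unfold imp
      calc 4 * (k + 1) = 2 * (2 * k) + 4 := by ring
        _ = _ := by rw [hab]; ring
  · exact Or.inr (Or.inl ⟨q, h⟩)
  · exact Or.inr (Or.inr (Or.inl ⟨q, h⟩))
  · exact Or.inr (Or.inr (Or.inr (Or.inl ⟨q, h⟩)))

theorem imp_ne_zero (a b : N.M) : imp a b ≠ 0 := (lt_of_le_of_lt (zero_le' a) (lt_imp_left a b)).ne'

theorem box_ne_zero (a : N.M) : box a ≠ 0 := (lt_of_le_of_lt (zero_le' a) (lt_box a)).ne'

theorem lt4 {r : N.M} (l : N.M) (h : (4 : N.M) = r + l + 1) : r < 4 := (lt_iff_add'' _ _).2 ⟨l, h⟩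

theorem box_ne_imp (a b c : N.M) : box a ≠ imp b c := by
  obtain ⟨q, hq⟩ := imp_eq b c
  rw [hq]
  intro h
  have h1 : 4 * a + 3 = 4 * (q + 1) + 0 := by rw [add_zero]; exact h
  have h2 := mod4 (lt4 0 (by norm_num)) (lt4 3 (by norm_num)) h1
  exact absurd h2 (by norm_num)

theorem pvar_ne_imp (a b c : N.M) : pvar a ≠ imp b c := by
  obtain ⟨q, hq⟩ := imp_eq b c
  rw [hq]
  intro h
  have h1 : 4 * a + 1 = 4 * (q + 1) + 0 := by rw [add_zero]; exact h
  have h2 := mod4 (lt4 2 (by norm_num)) (lt4 3 (by norm_num)) h1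
  exact absurd h2 (by norm_num)

theorem pcst_ne_imp (a b c : N.M) : pcst a ≠ imp b c := by
  obtain ⟨q, hq⟩ := imp_eq b c
  rw [hq]
  intro h
  have h1 : 4 * a + 2 = 4 * (q + 1) + 0 := by rw [add_zero]; exact h
  have h2 := mod4 (lt4 1 (by norm_num)) (lt4 3 (by norm_num)) h1
  exact absurd h2 (by norm_num)

theorem pvar_ne_pcst (a b : N.M) : pvar a ≠ pcst b := fun h =>
  absurd (mod4 (lt4 2 (by norm_num)) (lt4 1 (by norm_num)) h) (by norm_num)

theorem pvar_ne_box (a b : N.M) : pvar a ≠ box b := fun h =>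
  absurd (mod4 (lt4 2 (by norm_num)) (lt4 0 (by norm_num)) h) (by norm_num)

theorem pcst_ne_box (a b : N.M) : pcst a ≠ box b := fun h =>
  absurd (mod4 (lt4 1 (by norm_num)) (lt4 0 (by norm_num)) h) (by norm_num)

end

end Pool.Agent.T2H95.MS
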