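import Mathlib
import Pool.Agent.T2H95.MS.Form
import Pool.Agent.T2H95.MS.Cl

/-!
Derivations in `S4.2` inside a model of `RCA₀`.
-/

namespace Pool.Agent.T2H95.MS

open Pool.Agent.Helper617.RM

universe u

set_option linter.unusedSectionVars false
set_option linter.unusedVariables false

variable {N : L2Structure.{u}} [IsModelRCA0 N]

/-- the axioms of `S4.2`, in the variables `p_0`, `p_1`, `p_2` -/
def IsAx (x : N.M) : Prop :=
  x = imp (pvar 0) (imp (pvar 1) (pvar 0)) ∨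
  x = imp (imp (pvar 0) (imp (pvar 1) (pvar 2))) (imp (imp (pvar 0) (pvar 1)) (imp (pvar 0) (pvar 2))) ∨
  x = imp (imp (neg (pvar 0)) (neg (pvar 1))) (imp (pvar 1) (pvar 0)) ∨
  x = imp (box (imp (pvar 0) (pvar 1))) (imp (box (pvar 0)) (box (pvar 1))) ∨
  x = imp (box (pvar 0)) (pvar 0) ∨
  x = imp (box (pvar 0)) (box (box (pvar 0))) ∨
  x = imp (dia (box (pvar 0))) (box (dia (pvar 0)))

/-- modus ponens -/
def RMp (a b z : N.M) : Prop := a = imp b z

/-- the sequence coded by `s` is a substitution -/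
def HomC (s : N.M) : Prop :=
  (∀ z, z < s → (MemC (pr 0 z) s → z = 0)) ∧
  ((∀ i, i < s → ∀ z, z < s → (MemC (pr (pcst i) z) s → z = pcst i)) ∧
  ((∀ x, x < s → ∀ y, y < s → ∀ z, z < s → (MemC (pr (box x) z) s → (MemC (pr x y) s → z = box y))) ∧
  (∀ x, x < s → ∀ y, y < s → ∀ x', x' < s → ∀ y', y' < s → ∀ z, z < s →
    (MemC (pr (imp x y) z) s → (MemC (pr x x') s → (MemC (pr y y') s → z = imp x' y'))))))

/-- `z` is obtained from `a` by a uniform substitution -/
def InC (a z : N.M) : Prop := ∃ s, IsSq s (a + 1) ∧ (HomC s ∧ MemC (pr a z) s)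

/-- modus ponens, necessitation and uniform substitution -/
def RNc (a b z : N.M) : Prop := a = imp b z ∨ (z = box a ∨ InC a z)

/-- provable -/
def Pv (x : N.M) : Prop := Cl IsAx RNc x

/-- derivable from the hypotheses `H` by modus ponens from provable formulas -/
def Der (H : N.M → Prop) (x : N.M) : Prop := Cl (fun y => Pv y ∨ H y) RMp x

theorem RMp_D0 : D0 (fun w : Ctx N => RMp (w 0) (w 1) (w 2)) :=
  D0.eq (Tm.var 0) (Tm.imp (Tm.var 1) (Tm.var 2))

theorem Tm.pcst {t : Ctx N → N.M} (ht : Tm t) : Tm (fun v => pcst (t v)) :=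
  ((Tm.const 4).mul ht).add (Tm.const 2)

theorem Tm.pvar {t : Ctx N → N.M} (ht : Tm t) : Tm (fun v => pvar (t v)) :=
  ((Tm.const 4).mul ht).add (Tm.const 1)

theorem HomC_D0 {t : Ctx N → N.M} (ht : Tm t) : D0 (fun v => HomC (t v)) := by
  refine D0.and ?_ (D0.and ?_ (D0.and ?_ ?_))
  · refine D0.ball ht (D0.imp ?_ ?_)
    · exact MemC_D0 (Tm.zero.pr (Tm.var 0)) ht.tail
    · exact D0.eq (Tm.var 0) Tm.zero
  · refine D0.ball ht (D0.ball ht.tail (D0.imp ?_ ?_))
    · exact MemC_D0 ((Tm.pcst (Tm.var 1)).pr (Tm.var 0)) ht.tail.tail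
    · exact D0.eq (Tm.var 0) (Tm.pcst (Tm.var 1))
  · refine D0.ball ht (D0.ball ht.tail (D0.ball ht.tail.tail (D0.imp ?_ (D0.imp ?_ ?_))))
    · exact MemC_D0 ((Tm.box (Tm.var 2)).pr (Tm.var 0)) ht.tail.tail.tail
    · exact MemC_D0 ((Tm.var 2).pr (Tm.var 1)) ht.tail.tail.tail
    · exact D0.eq (Tm.var 0) (Tm.box (Tm.var 1))
  · refine D0.ball ht (D0.ball ht.tail (D0.ball ht.tail.tail (D0.ball ht.tail.tail.tail
      (D0.ball ht.tail.tail.tail.tail (D0.imp ?_ (D0.imp ?_ (D0.imp ?_ ?_)))))))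
    · exact MemC_D0 ((Tm.imp (Tm.var 4) (Tm.var 3)).pr (Tm.var 0)) ht.tail.tail.tail.tail.tail
    · exact MemC_D0 ((Tm.var 4).pr (Tm.var 2)) ht.tail.tail.tail.tail.tail
    · exact MemC_D0 ((Tm.var 3).pr (Tm.var 1)) ht.tail.tail.tail.tail.tail
    · exact D0.eq (Tm.var 0) (Tm.imp (Tm.var 2) (Tm.var 1))

theorem InC_S1 {s t : Ctx N → N.M} (hs : Tm s) (ht : Tm t) : S1 (fun v => InC (s v) (t v)) :=
  S1.ex (D0.S1 (D0.and (IsSq_D0 (Tm.var 0) (hs.tail.add Tm.one)) (D0.and (HomC_D0 (Tm.var 0))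
    (MemC_D0 (hs.tail.pr ht.tail) (Tm.var 0)))))

theorem RNc_S1 : S1 (fun w : Ctx N => RNc (w 0) (w 1) (w 2)) :=
  S1.or (D0.eq (Tm.var 0) (Tm.imp (Tm.var 1) (Tm.var 2))).S1
    (S1.or (D0.eq (Tm.var 2) (Tm.box (Tm.var 0))).S1 (InC_S1 (Tm.var 0) (Tm.var 2)))

theorem IsAx_S1 : S1 (fun v : Ctx N => IsAx (v 0)) := by
  unfold IsAx
  refine D0.S1 ?_
  refine D0.or ?_ (D0.or ?_ (D0.or ?_ (D0.or ?_ (D0.or ?_ (D0.or ?_ ?_))))) <;> exact D0.eq (Tm.var 0) (Tm.const _)

theorem Pv_S1 {t : Ctx N → N.M} (ht : Tm t) : S1 (fun v => Pv (t v)) :=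
  Cl_S1 (B := fun _ => IsAx) IsAx_S1 RNc_S1 ht

theorem Der_S1 {H : Ctx N → N.M → Prop} (hH : S1 (fun w => H (tail w) (w 0))) {t : Ctx N → N.M} (ht : Tm t) :
    S1 (fun v => Der (H v) (t v)) :=
  Cl_S1 (B := fun v y => Pv y ∨ H v y) (S1.or (Pv_S1 (Tm.var 0)) hH) RMp_D0.S1 ht

theorem Der_S1' {H : N.M → Prop} (hH : S1 (fun v => H (v 0))) {t : Ctx N → N.M} (ht : Tm t) :
    S1 (fun v => Der H (t v)) := Der_S1 (H := fun _ => H) hH ht

/-! ### substitutions -/

/-- the sequence coded by `s` maps `p_0`, `p_1`, `p_2` to `a`, `b`, `c` -/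
def Sb (a b c s : N.M) : Prop :=
  (∀ z, z < s → (MemC (pr (pvar 0) z) s → z = a)) ∧ ((∀ z, z < s → (MemC (pr (pvar 1) z) s → z = b)) ∧
    (∀ z, z < s → (MemC (pr (pvar 2) z) s → z = c)))

theorem Sb_D0 (a b c : N.M) {t : Ctx N → N.M} (ht : Tm t) : D0 (fun v => Sb a b c (t v)) := by
  refine D0.and ?_ (D0.and ?_ ?_)
  · exact D0.ball ht (D0.imp (MemC_D0 ((Tm.const _).pr (Tm.var 0)) ht.tail) (D0.eq (Tm.var 0) (Tm.const _)))
  · exact D0.ball ht (D0.imp (MemC_D0 ((Tm.const _).pr (Tm.var 0)) ht.tail) (D0.eq (Tm.var 0) (Tm.const _)))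
  · exact D0.ball ht (D0.imp (MemC_D0 ((Tm.const _).pr (Tm.var 0)) ht.tail) (D0.eq (Tm.var 0) (Tm.const _)))

/-- substitutions exist -/
theorem exists_subst (a b c k : N.M) : ∃ s, IsSq s k ∧ (HomC s ∧ Sb a b c s) := by
  refine ind_S1 (P := fun k => ∃ s, IsSq s k ∧ (HomC s ∧ Sb a b c s)) ?_ ?_ ?_ k
  · exact S1.ex (D0.S1 (D0.and (IsSq_D0 (Tm.var 0) (Tm.var 1)) (D0.and (HomC_D0 (Tm.var 0))
      (Sb_D0 a b c (Tm.var 0)))))
  · obtain ⟨s, hs⟩ := exists_empty (N := N)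
    have hno : ∀ i z, ¬ MemC (pr i z) s := fun i z h => absurd (hs.lt h) (not_lt_of_ge (zero_le' _))
    exact ⟨s, hs, ⟨fun z _ h => absurd h (hno _ _), fun i _ z _ h => absurd h (hno _ _),
      fun x _ y _ z _ h => absurd h (hno _ _), fun x _ y _ x' _ y' _ z _ h => absurd h (hno _ _)⟩,
      ⟨fun z _ h => absurd h (hno _ _), fun z _ h => absurd h (hno _ _), fun z _ h => absurd h (hno _ _)⟩⟩
  · rintro k ⟨s, hs, ⟨h1, h2, h3, h4⟩, h5, h6, h7⟩
    -- the value at `k`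
    obtain ⟨v, hv⟩ : ∃ v, (k = 0 → v = 0) ∧ (∀ i, k = pcst i → v = pcst i) ∧
        (∀ x y, k = box x → MemC (pr x y) s → v = box y) ∧
        (∀ x y x' y', k = imp x y → MemC (pr x x') s → MemC (pr y y') s → v = imp x' y') ∧
        (k = pvar 0 → v = a) ∧ (k = pvar 1 → v = b) ∧ (k = pvar 2 → v = c) := by
      have p01 : (pvar 0 : N.M) ≠ pvar 1 := fun h => absurd (pvar_inj h) zero_ne_one
      have p02 : (pvar 0 : N.M) ≠ pvar 2 := fun h => absurd (pvar_inj h) (by norm_num)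
      have p12 : (pvar 1 : N.M) ≠ pvar 2 := fun h => absurd (pvar_inj h) (by norm_num)
      have pz : ∀ i : N.M, pvar i ≠ 0 := fun i h => by
        unfold pvar at h
        exact absurd h (by
          have := lt_add_one_iff'.2 (zero_le' (4 * i))
          exact this.ne')
      have cz : ∀ i : N.M, pcst i ≠ 0 := fun i h => by
        unfold pcst at h
        have h1 : (0 : N.M) < 4 * i + 2 := by
          rw [lt_iff_add'']
          exact ⟨4 * i + 1, by ring⟩
        exact absurd h h1.ne'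
      rcases readable k with rfl | ⟨i, rfl⟩ | ⟨i, rfl⟩ | ⟨x, rfl⟩ | ⟨x, y, rfl⟩
      · exact ⟨0, fun _ => rfl, fun i h => absurd h.symm (cz i), fun x y h => absurd h.symm (box_ne_zero x),
          fun x y x' y' h => absurd h.symm (imp_ne_zero x y), fun h => absurd h.symm (pz 0),
          fun h => absurd h.symm (pz 1), fun h => absurd h.symm (pz 2)⟩
      · refine ⟨if pvar i = pvar 0 then a else if pvar i = pvar 1 then b else c, fun h => absurd h (pz i),
          fun j h => absurd h (pvar_ne_pcst i j), fun x y h => absurd h (pvar_ne_box i x),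
          fun x y x' y' h => absurd h (pvar_ne_imp i x y), fun h => if_pos h, fun h => ?_, fun h => ?_⟩
        · rw [h, if_neg p01.symm, if_pos rfl]
        · rw [h, if_neg p02.symm, if_neg p12.symm]
      · exact ⟨pcst i, fun h => absurd h (cz i), fun j h => h, fun x y h => absurd h (pcst_ne_box i x),
          fun x y x' y' h => absurd h (pcst_ne_imp i x y), fun h => absurd h.symm (pvar_ne_pcst 0 i),
          fun h => absurd h.symm (pvar_ne_pcst 1 i), fun h => absurd h.symm (pvar_ne_pcst 2 i)⟩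
      · obtain ⟨y, hy⟩ := hs.ex (lt_box x)
        refine ⟨box y, fun h => absurd h (box_ne_zero x), fun j h => absurd h.symm (pcst_ne_box j x),
          fun x' y' h hm => ?_, fun x1 y1 x' y' h => absurd h (box_ne_imp x x1 y1),
          fun h => absurd h.symm (pvar_ne_box 0 x), fun h => absurd h.symm (pvar_ne_box 1 x),
          fun h => absurd h.symm (pvar_ne_box 2 x)⟩
        rw [← box_inj h] at hm
        rw [hs.fn hy hm]
      · obtain ⟨x', hx'⟩ := hs.ex (lt_imp_left x y)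
        obtain ⟨y', hy'⟩ := hs.ex (lt_imp_right x y)
        refine ⟨imp x' y', fun h => absurd h (imp_ne_zero x y), fun j h => absurd h.symm (pcst_ne_imp j x y),
          fun x1 y1 h => absurd h.symm (box_ne_imp x1 x y), fun x1 y1 x2 y2 h m1 m2 => ?_,
          fun h => absurd h.symm (pvar_ne_imp 0 x y), fun h => absurd h.symm (pvar_ne_imp 1 x y),
          fun h => absurd h.symm (pvar_ne_imp 2 x y)⟩
        obtain ⟨e1, e2⟩ := imp_inj h
        rw [← e1] at m1
        rw [← e2] at m2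
        rw [hs.fn hx' m1, hs.fn hy' m2]
    obtain ⟨v1, v2, v3, v4, v5, v6, v7⟩ := hv
    obtain ⟨t, ht, hst, htv⟩ := exists_app hs v
    -- entries of `t` are entries of `s` or the new one
    have hcase : ∀ i z, MemC (pr i z) t → MemC (pr i z) s ∨ (i = k ∧ z = v) := by
      intro i z hm
      rcases lt_or_eq_of_le (lt_add_one_iff'.1 (ht.lt hm)) with hi | rfl
      · obtain ⟨z', hz'⟩ := hs.ex hi
        rw [ht.fn hm (hst.mem hz')]
        exact Or.inl hz'
      · exact Or.inr ⟨rfl, ht.fn hm htv⟩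
    have hold : ∀ i z, i < k → MemC (pr i z) t → MemC (pr i z) s := by
      intro i z hi hm
      rcases hcase i z hm with h | ⟨h, _⟩
      · exact h
      · rw [h] at hi
        exact absurd hi (lt_irrefl _)
    refine ⟨t, ht, ⟨fun z _ hm => ?_, fun i _ z _ hm => ?_, fun x _ y _ z _ hm hm' => ?_,
      fun x _ y _ x' _ y' _ z _ hm hx hy => ?_⟩, fun z _ hm => ?_, fun z _ hm => ?_, fun z _ hm => ?_⟩
    · rcases hcase _ z hm with h | ⟨h, rfl⟩
      · exact h1 z h.snd_lt h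
      · exact v1 h.symm
    · rcases hcase _ z hm with h | ⟨h, rfl⟩
      · exact h2 i (lt_of_le_of_lt (by
          unfold pcst
          rw [le_iff_add']
          exact ⟨3 * i + 2, by ring⟩) h.fst_lt) z h.snd_lt h
      · exact v2 i h.symm
    · rcases hcase _ z hm with h | ⟨h, rfl⟩
      · have hxk : x < k := (lt_box x).trans (hs.lt h)
        have hm1 := hold x y hxk hm'
        exact h3 x hm1.fst_lt y hm1.snd_lt z h.snd_lt h hm1
      · exact v3 x y h.symm (hold x y (by rw [← h]; exact lt_box x) hm')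
    · rcases hcase _ z hm with h | ⟨h, rfl⟩
      · have hm1 := hold x x' ((lt_imp_left x y).trans (hs.lt h)) hx
        have hm2 := hold y y' ((lt_imp_right x y).trans (hs.lt h)) hy
        exact h4 x hm1.fst_lt y hm2.fst_lt x' hm1.snd_lt y' hm2.snd_lt z h.snd_lt h hm1 hm2
      · exact v4 x y x' y' h.symm (hold x x' (by rw [← h]; exact lt_imp_left x y) hx)
          (hold y y' (by rw [← h]; exact lt_imp_right x y) hy)
    · rcases hcase _ z hm with h | ⟨h, rfl⟩
      · exact h5 z h.snd_lt h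
      · exact v5 h.symm
    · rcases hcase _ z hm with h | ⟨h, rfl⟩
      · exact h6 z h.snd_lt h
      · exact v6 h.symm
    · rcases hcase _ z hm with h | ⟨h, rfl⟩
      · exact h7 z h.snd_lt h
      · exact v7 h.symm

/-- the value of the substitution at `x`, if there is one, is `X` -/
def Ev (s x X : N.M) : Prop := ∀ z, MemC (pr x z) s → z = X

theorem Ev.zero {s : N.M} (hs : HomC s) : Ev s 0 0 := fun z h => hs.1 z h.snd_lt h

theorem Ev.box {s k x X : N.M} (hk : IsSq s k) (hs : HomC s) (h : Ev s x X) : Ev s (MS.box x) (MS.box X) := by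
  intro z hz
  obtain ⟨y, hy⟩ := hk.ex ((lt_box x).trans (hk.lt hz))
  rw [hs.2.2.1 x hy.fst_lt y hy.snd_lt z hz.snd_lt hz hy, h y hy]

theorem Ev.imp {s k x y X Y : N.M} (hk : IsSq s k) (hs : HomC s) (h : Ev s x X) (h' : Ev s y Y) :
    Ev s (MS.imp x y) (MS.imp X Y) := by
  intro z hz
  obtain ⟨x', hx'⟩ := hk.ex ((lt_imp_left x y).trans (hk.lt hz))
  obtain ⟨y', hy'⟩ := hk.ex ((lt_imp_right x y).trans (hk.lt hz))
  rw [hs.2.2.2 x hx'.fst_lt y hy'.fst_lt x' hx'.snd_lt y' hy'.snd_lt z hz.snd_lt hz hx' hy', h x' hx', h' y' hy']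

/-- the instances of a formula -/
theorem inst_of {A a b c X : N.M} (h : ∀ s k, IsSq s k → HomC s → Ev s (pvar 0) a → Ev s (pvar 1) b →
    Ev s (pvar 2) c → Ev s A X) : InC A X := by
  obtain ⟨s, hs, hh, h1, h2, h3⟩ := exists_subst a b c (A + 1)
  obtain ⟨z, hz⟩ := hs.ex (lt_add_one_iff'.2 (le_refl A))
  have e := h s _ hs hh (fun z hz => h1 z hz.snd_lt hz) (fun z hz => h2 z hz.snd_lt hz)
    (fun z hz => h3 z hz.snd_lt hz) z hz
  rw [e] at hz
  exact ⟨s, hs, hh, hz⟩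

/-! ### provable formulas -/

theorem Pv.mp {a b : N.M} (h : Pv (imp a b)) (h' : Pv a) : Pv b := Cl.step h h' (Or.inl rfl)

theorem Pv.nec {a : N.M} (h : Pv a) : Pv (box a) := Cl.step h h (Or.inr (Or.inl rfl))

theorem Pv.inst {a b : N.M} (h : Pv a) (h' : InC a b) : Pv b := Cl.step h h (Or.inr (Or.inr h'))

theorem Pv.a1 (a b : N.M) : Pv (imp a (imp b a)) :=
  Pv.inst (Cl.base (Or.inl rfl)) (inst_of (a := a) (b := b) (c := 0) fun s k hk hs e0 e1 e2 =>
    Ev.imp hk hs e0 (Ev.imp hk hs e1 e0))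

theorem Pv.a2 (a b c : N.M) : Pv (imp (imp a (imp b c)) (imp (imp a b) (imp a c))) :=
  Pv.inst (Cl.base (Or.inr (Or.inl rfl))) (inst_of (a := a) (b := b) (c := c) fun s k hk hs e0 e1 e2 =>
    Ev.imp hk hs (Ev.imp hk hs e0 (Ev.imp hk hs e1 e2)) (Ev.imp hk hs (Ev.imp hk hs e0 e1) (Ev.imp hk hs e0 e2)))

theorem Pv.a3 (a b : N.M) : Pv (imp (imp (neg a) (neg b)) (imp b a)) :=
  Pv.inst (Cl.base (Or.inr (Or.inr (Or.inl rfl)))) (inst_of (a := a) (b := b) (c := 0) fun s k hk hs e0 e1 e2 =>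
    Ev.imp hk hs (Ev.imp hk hs (Ev.imp hk hs e0 (Ev.zero hs)) (Ev.imp hk hs e1 (Ev.zero hs))) (Ev.imp hk hs e1 e0))

theorem Pv.k (a b : N.M) : Pv (imp (box (imp a b)) (imp (box a) (box b))) :=
  Pv.inst (Cl.base (Or.inr (Or.inr (Or.inr (Or.inl rfl))))) (inst_of (a := a) (b := b) (c := 0)
    fun s k hk hs e0 e1 e2 => Ev.imp hk hs (Ev.box hk hs (Ev.imp hk hs e0 e1))
      (Ev.imp hk hs (Ev.box hk hs e0) (Ev.box hk hs e1)))

theorem Pv.t (a : N.M) : Pv (imp (box a) a) :=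
  Pv.inst (Cl.base (Or.inr (Or.inr (Or.inr (Or.inr (Or.inl rfl)))))) (inst_of (a := a) (b := 0) (c := 0)
    fun s k hk hs e0 e1 e2 => Ev.imp hk hs (Ev.box hk hs e0) e0)

theorem Pv.four (a : N.M) : Pv (imp (box a) (box (box a))) :=
  Pv.inst (Cl.base (Or.inr (Or.inr (Or.inr (Or.inr (Or.inr (Or.inl rfl))))))) (inst_of (a := a) (b := 0) (c := 0)
    fun s k hk hs e0 e1 e2 => Ev.imp hk hs (Ev.box hk hs e0) (Ev.box hk hs (Ev.box hk hs e0)))

theorem Ev.neg {s k x X : N.M} (hk : IsSq s k) (hs : HomC s) (h : Ev s x X) : Ev s (MS.neg x) (MS.neg X) :=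
  Ev.imp hk hs h (Ev.zero hs)

theorem Ev.dia {s k x X : N.M} (hk : IsSq s k) (hs : HomC s) (h : Ev s x X) : Ev s (MS.dia x) (MS.dia X) :=
  Ev.neg hk hs (Ev.box hk hs (Ev.neg hk hs h))

theorem Pv.dot2 (a : N.M) : Pv (imp (dia (box a)) (box (dia a))) :=
  Pv.inst (Cl.base (Or.inr (Or.inr (Or.inr (Or.inr (Or.inr (Or.inr rfl))))))) (inst_of (a := a) (b := 0) (c := 0)
    fun s k hk hs e0 e1 e2 => Ev.imp hk hs (Ev.dia hk hs (Ev.box hk hs e0)) (Ev.box hk hs (Ev.dia hk hs e0)))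

/-! ### derivations -/

variable {H : N.M → Prop}

theorem Der.thm {x : N.M} (h : Pv x) : Der H x := Cl.base (Or.inl h)

theorem Der.hyp {x : N.M} (h : H x) : Der H x := Cl.base (Or.inr h)

theorem Der.mp {a b : N.M} (h : Der H (imp a b)) (h' : Der H a) : Der H b := Cl.step h h' rfl

theorem Der.mono {H' : N.M → Prop} (h : ∀ x, H x → H' x) {x : N.M} (hx : Der H x) : Der H' x :=
  Cl.mono (fun y hy => hy.imp id (h y)) hx

/-- cut: hypotheses may be replaced by derivable formulas -/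
theorem Der.cut {H' : N.M → Prop} (hH' : S1 (fun v => H' (v 0))) (h : ∀ x, H x → Der H' x) {x : N.M} (hx : Der H x) :
    Der H' x := by
  refine Cl.ind (S := fun x => Der H' x) (Der_S1' hH' (Tm.var 0)) ?_ ?_ hx
  · rintro x (h1 | h1)
    · exact Der.thm h1
    · exact h x h1
  · intro a b x ha hb hq
    have e : a = imp b x := hq
    rw [e] at ha
    exact ha.mp hb

theorem Der.id (a : N.M) : Der H (imp a a) :=
  ((Der.thm (Pv.a2 a (imp a a) a)).mp (Der.thm (Pv.a1 a (imp a a)))).mp (Der.thm (Pv.a1 a a))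

theorem Der.k {a : N.M} (h : Der H a) (b : N.M) : Der H (imp b a) := (Der.thm (Pv.a1 a b)).mp h

/-- deduction theorem -/
theorem Der.ded (hH : S1 (fun v => H (v 0))) {a x : N.M} (hx : Der (fun y => H y ∨ y = a) x) : Der H (imp a x) := by
  refine Cl.ind (S := fun x => Der H (imp a x)) (Der_S1' hH (Tm.imp (Tm.const a) (Tm.var 0))) ?_ ?_ hx
  · rintro x (h1 | h1 | h1)
    · exact (Der.thm h1).k a
    · exact (Der.hyp h1).k a
    · rw [h1]
      exact Der.id a
  · intro b c x hb hc hq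
    have e : b = imp c x := hq
    rw [e] at hb
    exact ((Der.thm (Pv.a2 a c x)).mp hb).mp hc

theorem Der.efq {x : N.M} (h : Der H 0) : Der H x := by
  have h1 : Der H (imp (neg x) (neg 0)) := Der.k (Der.id 0) (neg x)
  exact ((Der.thm (Pv.a3 x 0)).mp h1).mp h

theorem Der.dn {x : N.M} (h : Der H (neg (neg x))) : Der H x := by
  have h1 : Der H (imp (neg (neg (neg (neg x)))) (neg (neg x))) := h.k _
  have h2 : Der H (imp (neg x) (neg (neg (neg x)))) := (Der.thm (Pv.a3 (neg (neg (neg x))) (neg x))).mp h1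
  have h3 : Der H (imp (neg (neg x)) x) := (Der.thm (Pv.a3 x (neg (neg x)))).mp h2
  exact h3.mp h

/-- proof by contradiction -/
theorem Der.byc (hH : S1 (fun v => H (v 0))) {x : N.M} (hx : Der (fun y => H y ∨ y = neg x) 0) : Der H x :=
  (Der.ded hH hx).dn

/-- `¬ a → (a → b)` -/
theorem Der.nimp {a b : N.M} (h : Der H (neg a)) : Der H (imp a b) := by
  -- `a → ⊥` and `⊥ → b`
  have h1 : Der H (imp 0 b) := by
    have h2 : Der H (imp (neg b) (neg 0)) := Der.k (Der.id 0) (neg b)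
    exact (Der.thm (Pv.a3 b 0)).mp h2
  exact ((Der.thm (Pv.a2 a 0 b)).mp (h1.k a)).mp h

/-- composition of implications -/
theorem Der.comp {a b c : N.M} (h : Der H (imp a b)) (h' : Der H (imp b c)) : Der H (imp a c) :=
  ((Der.thm (Pv.a2 a b c)).mp (h'.k a)).mp h

/-- contraposition -/
theorem Der.contra {a b : N.M} (h : Der H (imp a b)) : Der H (imp (neg b) (neg a)) := by
  -- `(b → ⊥) → (a → ⊥)`: from `a → b` and `(b → ⊥)`, `a → (b → ⊥)`
  have h1 : Der H (imp (neg b) (imp a (neg b))) := Der.thm (Pv.a1 (neg b) a)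
  have h2 : Der H (imp (imp a (neg b)) (imp (imp a b) (imp a 0))) := Der.thm (Pv.a2 a b 0)
  have h3 : Der H (imp (neg b) (imp (imp a b) (imp a 0))) := h1.comp h2
  exact ((Der.thm (Pv.a2 (neg b) (imp a b) (imp a 0))).mp h3).mp (h.k (neg b))

theorem Pv_of_Der {x : N.M} (h : Der (fun _ => False) x) : Pv x := by
  refine Cl.ind (S := fun x => Pv x) (Pv_S1 (Tm.var 0)) ?_ ?_ h
  · rintro x (h1 | h1)
    · exact h1
    · exact h1.elim
  · intro a b x ha hb hq
    have e : a = imp b x := hq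
    rw [e] at ha
    exact ha.mp hb

/-- if all hypotheses are boxed then derivable formulas are derivable in the boxed form -/
theorem Der.box (hH : S1 (fun v => H (v 0))) (hb : ∀ x, H x → ∃ y, x = box y) {x : N.M} (hx : Der H x) :
    Der H (MS.box x) := by
  refine Cl.ind (S := fun x => Der H (MS.box x)) (Der_S1' hH (Tm.box (Tm.var 0))) ?_ ?_ hx
  · rintro x (h1 | h1)
    · exact Der.thm h1.nec
    · obtain ⟨y, rfl⟩ := hb x h1
      exact (Der.thm (Pv.four y)).mp (Der.hyp h1)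
  · intro b c x hb hc hq
    have e : b = imp c x := hq
    rw [e] at hb
    exact ((Der.thm (Pv.k c x)).mp hb).mp hc

/-- the formula `□ ¬ □ a` -/
noncomputable def nb (a : N.M) : N.M := box (neg (box a))

theorem Tm.nb {t : Ctx N → N.M} (ht : Tm t) : Tm (fun v => nb (t v)) := Tm.box (Tm.neg (Tm.box ht))

/-- `¬ □ ¬ □ a → □ ¬ □ ¬ □ a`, that is `◇ □ a → □ ◇ □ a` -/
theorem Der.dich (a : N.M) : Der H (imp (neg (nb a)) (MS.box (neg (nb a)))) := by
  -- the axiom `.2` for `□ a`: `◇ □ □ a → □ ◇ □ a`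
  have h1 : Der H (imp (dia (MS.box (MS.box a))) (MS.box (dia (MS.box a)))) := Der.thm (Pv.dot2 (MS.box a))
  -- `◇ □ a → ◇ □ □ a`
  have h2 : Pv (imp (neg (MS.box (MS.box a))) (neg (MS.box a))) :=
    Pv_of_Der (Der.contra (Der.thm (Pv.four a)))
  have h3 : Der H (imp (MS.box (neg (MS.box (MS.box a)))) (MS.box (neg (MS.box a)))) :=
    (Der.thm (Pv.k _ _)).mp (Der.thm h2.nec)
  have h4 : Der H (imp (neg (MS.box (neg (MS.box a)))) (neg (MS.box (neg (MS.box (MS.box a)))))) := h3.contra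
  exact h4.comp h1

end Pool.Agent.T2H95.MS
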