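import Mathlib
import Pool.Agent.T2H95.MS.Log

/-!
Codes of subsets of an initial segment with a common bound, and Lindenbaum's lemma for finitely many formulas.
-/

namespace Pool.Agent.T2H95.MS

open Pool.Agent.Helper617.RM

universe u

set_option linter.unusedSectionVars false
set_option linter.unusedVariables false

variable {N : L2Structure.{u}} [IsModelRCA0 N]

/-- all definable subsets of `[0, n)` have codes below a common bound -/
theorem exists_bound (n : N.M) : ∃ b : N.M, ∀ P : N.M → Prop, D0 (fun v => P (v 0)) →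
    ∃ c, c < b ∧ ∀ i, MemC i c ↔ i < n ∧ P i := by
  obtain ⟨m, hm⟩ := exists_base n
  obtain ⟨B, hB, hB2⟩ := exists_top n m
  refine ⟨pr n (pr m B) + 1, fun P hP => ?_⟩
  obtain ⟨k, hkB, _, hk, _⟩ := exists_code (P := P) hP.S1 hm hB hB2
  refine ⟨pr n (pr m k), ?_, fun i => ?_⟩
  · refine lt_add_one_iff'.2 ?_
    have mono : ∀ {x y z : N.M}, y ≤ z → pr x y ≤ pr x z := by
      intro x y z h
      unfold pr
      gcongr
    exact mono (mono hkB)
  · rw [MemC_pr]
    constructor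
    · rintro ⟨h1, h2⟩
      exact ⟨h1, (hk i h1).1 h2⟩
    · rintro ⟨h1, h2⟩
      exact ⟨h1, (hk i h1).2 h2⟩

/-- the choices `A i` (for `i` in the set coded by `c`) or `B i`, for `i < k` -/
def Ch (A B : N.M → N.M) (c k x : N.M) : Prop :=
  ∃ i, i < k ∧ ((MemC i c ∧ x = A i) ∨ (¬ MemC i c ∧ x = B i))

theorem Ch_D0 {A B : N.M → N.M} (hA : Tm (fun v : Ctx N => A (v 0))) (hB : Tm (fun v : Ctx N => B (v 0)))
    {s t r : Ctx N → N.M} (hs : Tm s) (ht : Tm t) (hr : Tm r) : D0 (fun v => Ch A B (s v) (t v) (r v)) := by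
  refine D0.bex ht (D0.or (D0.and ?_ ?_) (D0.and ?_ ?_))
  · exact MemC_D0 (Tm.var 0) hs.tail
  · exact D0.eq hr.tail hA
  · exact (MemC_D0 (Tm.var 0) hs.tail).not
  · exact D0.eq hr.tail hB

/-- `K` together with the choices is consistent -/
def Con (K : N.M → Prop) (A B : N.M → N.M) (c k : N.M) : Prop := ¬ Der (fun y => K y ∨ Ch A B c k y) 0

theorem Con_S1 {K : N.M → Prop} (hK : S1 (fun v => K (v 0))) {A B : N.M → N.M}
    (hA : Tm (fun v : Ctx N => A (v 0))) (hB : Tm (fun v : Ctx N => B (v 0)))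
    {s t : Ctx N → N.M} (hs : Tm s) (ht : Tm t) : S1 (fun v => ¬ Con K A B (s v) (t v)) := by
  refine S1.congr (R := fun v => Der (fun y => K y ∨ Ch A B (s v) (t v) y) 0) ?_ fun v => by
    unfold Con
    rw [not_not]
  exact Der_S1 (H := fun v y => K y ∨ Ch A B (s v) (t v) y)
    (S1.or hK (Ch_D0 hA hB hs.tail ht.tail (Tm.var 0)).S1) Tm.zero

/-- Lindenbaum's lemma -/
theorem lindenbaum {K : N.M → Prop} (hK : S1 (fun v => K (v 0))) {A B : N.M → N.M}
    (hA : Tm (fun v : Ctx N => A (v 0))) (hB : Tm (fun v : Ctx N => B (v 0)))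
    (hAB : ∀ (H : N.M → Prop) (i : N.M), Der H (imp (neg (A i)) (B i))) (hcon : ¬ Der K 0) {n b : N.M}
    (hb : ∀ P : N.M → Prop, D0 (fun v => P (v 0)) → ∃ c, c < b ∧ ∀ i, MemC i c ↔ i < n ∧ P i) :
    ∃ c, c < b ∧ (∀ i, MemC i c → i < n) ∧ Con K A B c n := by
  have key : ∀ k, k ≤ n → ∃ c, c < b ∧ Con K A B c k := by
    intro k
    refine ind_P1 (P := fun k => k ≤ n → ∃ c, c < b ∧ Con K A B c k) ?_ ?_ ?_ k
    · refine S1.congr (R := fun v => v 0 ≤ n ∧ ∀ c, c < b → ¬ Con K A B c (v 0)) ?_ fun v => ?_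
      · refine S1.and (D0.le (Tm.var 0) (Tm.const n)).S1 (S1.ball (Tm.const b) ?_)
        exact Con_S1 hK hA hB (Tm.var 0) (Tm.var 1)
      · push Not
        rfl
    · intro _
      obtain ⟨c, hc, _⟩ := hb (fun _ => False) D0.false
      refine ⟨c, hc, fun h => hcon ?_⟩
      refine Der.mono ?_ h
      rintro x (h1 | ⟨i, hi, _⟩)
      · exact h1
      · exact absurd hi (not_lt_of_ge (zero_le' _))
    · intro k ih hk
      obtain ⟨c, hc, hcc⟩ := ih ((le_of_lt (lt_add_one_iff'.2 le_rfl)).trans hk)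
      have hkn : k < n := add_one_le_iff'.1 hk
      have hH : S1 (fun v : Ctx N => K (v 0) ∨ Ch A B c k (v 0)) :=
        S1.or hK (Ch_D0 hA hB (Tm.const c) (Tm.const k) (Tm.var 0)).S1
      by_cases h1 : Der (fun y => (K y ∨ Ch A B c k y) ∨ y = A k) 0
      · -- take `B k`
        obtain ⟨c', hc', hcm⟩ := hb (fun i => i < k ∧ MemC i c)
          (D0.and (D0.lt (Tm.var 0) (Tm.const k)) (MemC_D0 (Tm.var 0) (Tm.const c)))
        refine ⟨c', hc', fun h => hcc ?_⟩
        refine Der.cut hH ?_ h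
        rintro x (h2 | ⟨i, hi, h2⟩)
        · exact Der.hyp (Or.inl h2)
        · rcases lt_or_eq_of_le (lt_add_one_iff'.1 hi) with hi | rfl
          · refine Der.hyp (Or.inr ⟨i, hi, ?_⟩)
            rcases h2 with ⟨h2, h3⟩ | ⟨h2, h3⟩
            · exact Or.inl ⟨((hcm i).1 h2).2.2, h3⟩
            · refine Or.inr ⟨fun h4 => h2 ((hcm i).2 ⟨hi.trans hkn, hi, h4⟩), h3⟩
          · rcases h2 with ⟨h2, h3⟩ | ⟨h2, h3⟩
            · exact absurd ((hcm i).1 h2).2.1 (lt_irrefl _)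
            · rw [h3]
              exact (hAB _ i).mp (Der.ded hH h1)
      · -- take `A k`
        obtain ⟨c', hc', hcm⟩ := hb (fun i => (i < k ∧ MemC i c) ∨ i = k)
          (D0.or (D0.and (D0.lt (Tm.var 0) (Tm.const k)) (MemC_D0 (Tm.var 0) (Tm.const c)))
            (D0.eq (Tm.var 0) (Tm.const k)))
        refine ⟨c', hc', fun h => h1 ?_⟩
        refine Der.mono ?_ h
        rintro x (h2 | ⟨i, hi, h2⟩)
        · exact Or.inl (Or.inl h2)
        · rcases lt_or_eq_of_le (lt_add_one_iff'.1 hi) with hi | rfl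
          · refine Or.inl (Or.inr ⟨i, hi, ?_⟩)
            rcases h2 with ⟨h2, h3⟩ | ⟨h2, h3⟩
            · rcases ((hcm i).1 h2).2 with h4 | h4
              · exact Or.inl ⟨h4.2, h3⟩
              · exact absurd hi (by rw [h4]; exact lt_irrefl _)
            · exact Or.inr ⟨fun h4 => h2 ((hcm i).2 ⟨hi.trans hkn, Or.inl ⟨hi, h4⟩⟩), h3⟩
          · rcases h2 with ⟨h2, h3⟩ | ⟨h2, h3⟩
            · exact Or.inr h3
            · exact absurd ((hcm i).2 ⟨hkn, Or.inr rfl⟩) h2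
  obtain ⟨c, hc, hcc⟩ := key n le_rfl
  -- remove the elements `≥ n`
  obtain ⟨c', hc', hcm⟩ := hb (fun i => MemC i c) (MemC_D0 (Tm.var 0) (Tm.const c))
  refine ⟨c', hc', fun i hi => ((hcm i).1 hi).1, fun h => hcc ?_⟩
  refine Der.mono ?_ h
  rintro x (h2 | ⟨i, hi, h2⟩)
  · exact Or.inl h2
  · refine Or.inr ⟨i, hi, ?_⟩
    rcases h2 with ⟨h2, h3⟩ | ⟨h2, h3⟩
    · exact Or.inl ⟨((hcm i).1 h2).2, h3⟩
    · exact Or.inr ⟨fun h4 => h2 ((hcm i).2 ⟨hi, h4⟩), h3⟩

end Pool.Agent.T2H95.MS
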