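import Mathlib
import Pool.Agent.T2H95.MS.Lind

/-!
The finite model of a formula consistent with `S4.2`, inside a model of `RCA₀`.
-/

namespace Pool.Agent.T2H95.MS

open Pool.Agent.Helper617.RM

universe u

set_option linter.unusedSectionVars false
set_option linter.unusedVariables false

variable {N : L2Structure.{u}} [IsModelRCA0 N]

/-- the hypotheses of an atom -/
def Hy (K : N.M → Prop) (c n x : N.M) : Prop := K x ∨ Ch (fun i => i) neg c n x

theorem Hy_S1 {K : N.M → Prop} (hK : S1 (fun v => K (v 0))) (c n : N.M) : S1 (fun v => Hy K c n (v 0)) :=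
  S1.or hK (Ch_D0 (Tm.var 0) (Tm.neg (Tm.var 0)) (Tm.const c) (Tm.const n) (Tm.var 0)).S1

/-- `c` is an atom consistent with `K` -/
def At (K : N.M → Prop) (c n : N.M) : Prop := Con K (fun i => i) neg c n

theorem At.not {K : N.M → Prop} {c n : N.M} (h : At K c n) : ¬ Der (Hy K c n) 0 := h

theorem At.mono {K K' : N.M → Prop} {c n : N.M} (h : At K c n) (hK : ∀ x, K' x → K x) : At K' c n :=
  fun h1 => h (Der.mono (fun x hx => hx.imp (hK x) id) h1)

theorem At.pos {K : N.M → Prop} {c n x : N.M} (hx : x < n) (hm : MemC x c) : Der (Hy K c n) x :=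
  Der.hyp (Or.inr ⟨x, hx, Or.inl ⟨hm, rfl⟩⟩)

theorem At.negv {K : N.M → Prop} {c n x : N.M} (hx : x < n) (hm : ¬ MemC x c) : Der (Hy K c n) (neg x) :=
  Der.hyp (Or.inr ⟨x, hx, Or.inr ⟨hm, rfl⟩⟩)

/-- an atom is deductively closed -/
theorem At.iff {K : N.M → Prop} {c n x : N.M} (h : At K c n) (hx : x < n) : MemC x c ↔ Der (Hy K c n) x := by
  refine ⟨At.pos hx, fun h1 => ?_⟩
  by_contra h2
  exact h.not ((At.negv hx h2).mp h1)

theorem At.bot {K : N.M → Prop} {c n : N.M} (h : At K c n) (hn : 0 < n) : ¬ MemC 0 c :=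
  fun h1 => h.not (At.pos hn h1)

theorem At.imp_iff {K : N.M → Prop} {c n x y : N.M} (h : At K c n) (hx : imp x y < n) :
    MemC (imp x y) c ↔ (MemC x c → MemC y c) := by
  have h1 : x < n := (lt_imp_left x y).trans hx
  have h2 : y < n := (lt_imp_right x y).trans hx
  constructor
  · intro h3 h4
    rw [h.iff h2]
    exact ((h.iff hx).1 h3).mp ((h.iff h1).1 h4)
  · intro h3
    rw [h.iff hx]
    by_cases h4 : MemC x c
    · exact ((h.iff h2).1 (h3 h4)).k x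
    · exact (At.negv h1 h4).nimp

theorem At.t {K : N.M → Prop} {c n x : N.M} (h : At K c n) (hx : box x < n) (hm : MemC (box x) c) : MemC x c := by
  rw [h.iff ((lt_box x).trans hx)]
  exact (Der.thm (Pv.t x)).mp (At.pos hx hm)

/-- the accessibility relation on atoms -/
def Rb (n c d : N.M) : Prop := ∀ i, i < n → (box i < n → (MemC (box i) c → MemC (box i) d))

theorem Rb_D0 {s t r : Ctx N → N.M} (hs : Tm s) (ht : Tm t) (hr : Tm r) : D0 (fun v => Rb (s v) (t v) (r v)) := by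
  refine D0.ball hs (D0.imp ?_ (D0.imp ?_ ?_))
  · exact D0.lt (Tm.box (Tm.var 0)) hs.tail
  · exact MemC_D0 (Tm.box (Tm.var 0)) ht.tail
  · exact MemC_D0 (Tm.box (Tm.var 0)) hr.tail

theorem tmId : Tm (fun v : Ctx N => (fun i : N.M => i) (v 0)) := Tm.var 0

theorem tmNeg : Tm (fun v : Ctx N => neg (v 0)) := Tm.neg (Tm.var 0)

theorem tmB : Tm (fun v : Ctx N => box (neg (nb (v 0)))) := Tm.box (Tm.neg (Tm.nb (Tm.var 0)))

theorem hdn (H : N.M → Prop) (i : N.M) : Der H (imp (neg ((fun i => i) i)) (neg i)) := Der.id (neg i)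

/-- **The finite model.** -/
theorem model (φ : N.M) (hφ : ¬ Pv (neg φ)) : ∃ (b : N.M) (W : Set N.M) (R V : N.M → N.M → Prop),
    W ∈ N.Sets ∧ codeRel R ∈ N.Sets ∧ codeRel V ∈ N.Sets ∧ (∀ x ∈ W, x < b) ∧ (∀ x y, R x y → x ∈ W ∧ y ∈ W) ∧
    (∀ x ∈ W, R x x) ∧ (∀ x y z, R x y → R y z → R x z) ∧ (∃ s ∈ W, ∀ x ∈ W, R x s) ∧
    (∀ x ∈ W, ¬ V x 0) ∧ (∀ x ∈ W, ∀ y z, imp y z ≤ φ → (V x (imp y z) ↔ (V x y → V x z))) ∧
    (∀ x ∈ W, ∀ y, box y ≤ φ → (V x (box y) ↔ ∀ z, R x z → V z y)) ∧ ∃ w ∈ W, V w φ := by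
  obtain ⟨n, hn⟩ : ∃ n, n = φ + 1 := ⟨_, rfl⟩
  have hφn : φ < n := by rw [hn]; exact lt_add_one_iff'.2 le_rfl
  have h0n : 0 < n := lt_of_le_of_lt (zero_le' _) hφn
  obtain ⟨b, hb⟩ := exists_bound n
  have hK0 : S1 (fun v : Ctx N => v 0 = φ) := (D0.eq (Tm.var 0) (Tm.const φ)).S1
  have hcon0 : ¬ Der (fun y => y = φ) 0 := by
    intro h
    refine hφ (Pv_of_Der (Der.ded (H := fun _ => False) D0.false.S1 (Der.mono ?_ h)))
    intro x hx
    exact Or.inr hx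
  obtain ⟨e, -, -, he⟩ := lindenbaum hK0 (A := nb) (B := fun i => box (neg (nb i))) (Tm.nb (Tm.var 0))
    tmB (fun H i => Der.dich i) hcon0 hb
  -- the theory of the final cluster
  obtain ⟨T, hT⟩ : ∃ T : N.M → Prop, T = Ch nb (fun i => box (neg (nb i))) e n := ⟨_, rfl⟩
  have hTD : D0 (fun v => T (v 0)) := by
    rw [hT]
    exact Ch_D0 (A := nb) (B := fun i => box (neg (nb i))) (Tm.nb (Tm.var 0)) tmB (Tm.const e) (Tm.const n) (Tm.var 0)
  have hTb : ∀ x, T x → ∃ y, x = box y := by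
    intro x hx
    rw [hT] at hx
    obtain ⟨i, _, ⟨_, h⟩ | ⟨_, h⟩⟩ := hx
    · exact ⟨_, h⟩
    · exact ⟨_, h⟩
  have hT1 : ∀ i, i < n → MemC i e → T (nb i) := fun i hi hm => by
    rw [hT]
    exact ⟨i, hi, Or.inl ⟨hm, rfl⟩⟩
  have hT2 : ∀ i, i < n → ¬ MemC i e → T (box (neg (nb i))) := fun i hi hm => by
    rw [hT]
    exact ⟨i, hi, Or.inr ⟨hm, rfl⟩⟩
  have heT : ¬ Der (fun y => y = φ ∨ T y) 0 := by
    rw [hT]
    exact he
  -- atoms
  have hatom : ∀ K : N.M → Prop, S1 (fun v => K (v 0)) → ¬ Der K 0 → ∃ c, c < b ∧ At K c n := by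
    intro K hK hKc
    obtain ⟨c, hc, -, hcc⟩ := lindenbaum hK tmId tmNeg hdn hKc hb
    exact ⟨c, hc, hcc⟩
  have hWdef : {c : N.M | c < b ∧ At T c n} ∈ N.Sets := by
    have h1 : {c : N.M | c < b ∧ ¬ At T c n} ∈ N.Sets :=
      bdd_comp (P := fun c => ¬ At T c n) (Con_S1 hTD.S1 tmId tmNeg (Tm.var 0) (Tm.const n)) b
    have h2 : {c : N.M | c < b ∧ c ∉ {c : N.M | c < b ∧ ¬ At T c n}} ∈ N.Sets :=
      comp_D0 (P := fun c => c < b ∧ c ∉ {c : N.M | c < b ∧ ¬ At T c n})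
        (D0.and (D0.lt (Tm.var 0) (Tm.const b)) (D0.mem (Tm.var 0) h1).not)
    have e1 : {c : N.M | c < b ∧ At T c n} = {c : N.M | c < b ∧ c ∉ {c : N.M | c < b ∧ ¬ At T c n}} := by
      ext c
      simp only [Set.mem_ofPred_eq, not_and, not_not]
      tauto
    rw [e1]
    exact h2
  obtain ⟨W, hW⟩ : ∃ W : Set N.M, W = {c : N.M | c < b ∧ At T c n} := ⟨_, rfl⟩
  have hWS : W ∈ N.Sets := by rw [hW]; exact hWdef
  have hWb : ∀ c ∈ W, c < b := by
    intro c hc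
    rw [hW] at hc
    exact hc.1
  have hWa : ∀ c ∈ W, At T c n := by
    intro c hc
    rw [hW] at hc
    exact hc.2
  have hWi : ∀ c, c < b → At T c n → c ∈ W := by
    intro c h1 h2
    rw [hW]
    exact ⟨h1, h2⟩
  -- the final point
  have hfin : ∀ k, k ≤ n → ¬ Der (fun x => T x ∨ ∃ i, i < k ∧ (¬ MemC i e ∧ x = box i)) 0 := by
    have hS : ∀ k : N.M, S1 (fun v : Ctx N => T (v 0) ∨ ∃ i, i < k ∧ (¬ MemC i e ∧ v 0 = box i)) := by
      intro k
      refine S1.or hTD.S1 (D0.bex (Tm.const k) (D0.and ?_ ?_)).S1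
      · exact (MemC_D0 (Tm.var 0) (Tm.const e)).not
      · exact D0.eq (Tm.var 1) (Tm.box (Tm.var 0))
    intro k
    refine ind_P1 (P := fun k => k ≤ n → ¬ Der (fun x => T x ∨ ∃ i, i < k ∧ (¬ MemC i e ∧ x = box i)) 0) ?_ ?_ ?_ k
    · refine S1.congr (R := fun v => v 0 ≤ n ∧ Der (fun x => T x ∨ ∃ i, i < v 0 ∧ (¬ MemC i e ∧ x = box i)) 0) ?_
        fun v => ?_
      · refine S1.and (D0.le (Tm.var 0) (Tm.const n)).S1 ?_
        refine Der_S1 (H := fun v x => T x ∨ ∃ i, i < v 0 ∧ (¬ MemC i e ∧ x = box i)) (S1.or hTD.S1 ?_) Tm.zero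
        refine (D0.bex (Tm.var 1) (D0.and ?_ ?_)).S1
        · exact (MemC_D0 (Tm.var 0) (Tm.const e)).not
        · exact D0.eq (Tm.var 1) (Tm.box (Tm.var 0))
      · push Not
        rfl
    · intro _ h
      refine heT (Der.mono ?_ h)
      rintro x (h1 | ⟨i, hi, _⟩)
      · exact Or.inr h1
      · exact absurd hi (not_lt_of_ge (zero_le' _))
    · intro k ih hk h
      have hkn : k < n := add_one_le_iff'.1 hk
      have ih' := ih (le_of_lt hkn)
      by_cases hm : MemC k e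
      · refine ih' (Der.mono ?_ h)
        rintro x (h1 | ⟨i, hi, h2, h3⟩)
        · exact Or.inl h1
        · rcases lt_or_eq_of_le (lt_add_one_iff'.1 hi) with hi | rfl
          · exact Or.inr ⟨i, hi, h2, h3⟩
          · exact absurd hm h2
      · refine ih' ?_
        have h1 : Der (fun x => T x ∨ ∃ i, i < k ∧ (¬ MemC i e ∧ x = box i)) (neg (box k)) := by
          refine Der.ded (hS k) (Der.mono ?_ h)
          rintro x (h1 | ⟨i, hi, h2, h3⟩)
          · exact Or.inl (Or.inl h1)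
          · rcases lt_or_eq_of_le (lt_add_one_iff'.1 hi) with hi | rfl
            · exact Or.inl (Or.inr ⟨i, hi, h2, h3⟩)
            · exact Or.inr h3
        have h2 : Der (fun x => T x ∨ ∃ i, i < k ∧ (¬ MemC i e ∧ x = box i)) (nb k) := by
          refine Der.box (hS k) ?_ h1
          rintro x (h1 | ⟨i, _, _, h3⟩)
          · exact hTb x h1
          · exact ⟨i, h3⟩
        have h3 : Der (fun x => T x ∨ ∃ i, i < k ∧ (¬ MemC i e ∧ x = box i)) (neg (nb k)) :=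
          (Der.thm (Pv.t _)).mp (Der.hyp (Or.inl (hT2 k hkn hm)))
        exact h3.mp h2
  obtain ⟨s, hsb, hs⟩ := hatom (fun x => T x ∨ ∃ i, i < n ∧ (¬ MemC i e ∧ x = box i)) (by
    refine S1.or hTD.S1 (D0.bex (Tm.const n) (D0.and ?_ ?_)).S1
    · exact (MemC_D0 (Tm.var 0) (Tm.const e)).not
    · exact D0.eq (Tm.var 1) (Tm.box (Tm.var 0))) (hfin n le_rfl)
  have hsW : s ∈ W := hWi s hsb (hs.mono fun x hx => Or.inl hx)
  have hsR : ∀ c ∈ W, Rb n c s := by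
    intro c hc i hi hbi hm
    have hca := hWa c hc
    have h1 : ¬ MemC i e := by
      intro h2
      have h3 : Der (Hy T c n) (neg (box i)) := (Der.thm (Pv.t _)).mp (Der.hyp (Or.inl (hT1 i hi h2)))
      exact hca.not (h3.mp (At.pos hbi hm))
    rw [hs.iff hbi]
    exact Der.hyp (Or.inl (Or.inr ⟨i, hi, h1, rfl⟩))
  -- the point of `φ`
  obtain ⟨w, hwb, hw⟩ := hatom (fun x => x = φ ∨ T x) (S1.or hK0 hTD.S1) heT
  have hwW : w ∈ W := hWi w hwb (hw.mono fun x hx => Or.inr hx)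
  have hwφ : MemC φ w := by
    rw [hw.iff hφn]
    exact Der.hyp (Or.inl (Or.inl rfl))
  -- the model
  refine ⟨b, W, fun c d => c ∈ W ∧ (d ∈ W ∧ Rb n c d), fun c x => c ∈ W ∧ MemC x c, hWS, ?_, ?_, hWb,
    fun x y h => ⟨h.1, h.2.1⟩, fun x hx => ⟨hx, hx, fun i _ _ h => h⟩, ?_, ⟨s, hsW, fun x hx => ⟨hx, hsW, hsR x hx⟩⟩,
    ?_, ?_, ?_, w, hwW, hwW, hwφ⟩
  · refine codeRel_mem_D0 (R := fun c d => c ∈ W ∧ (d ∈ W ∧ Rb n c d)) ?_
    exact D0.and (D0.mem (Tm.var 0) hWS) (D0.and (D0.mem (Tm.var 1) hWS) (Rb_D0 (Tm.const n) (Tm.var 0) (Tm.var 1)))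
  · refine codeRel_mem_D0 (R := fun c x => c ∈ W ∧ MemC x c) ?_
    exact D0.and (D0.mem (Tm.var 0) hWS) (MemC_D0 (Tm.var 1) (Tm.var 0))
  · rintro x y z ⟨h1, h2, h3⟩ ⟨h4, h5, h6⟩
    exact ⟨h1, h5, fun i hi hbi h => h6 i hi hbi (h3 i hi hbi h)⟩
  · rintro x hx ⟨_, h⟩
    exact (hWa x hx).bot h0n h
  · intro x hx y z hyz
    have hlt : imp y z < n := by rw [hn]; exact lt_add_one_iff'.2 hyz
    have h1 := (hWa x hx).imp_iff hlt
    constructor
    · rintro ⟨_, h2⟩ ⟨_, h3⟩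
      exact ⟨hx, h1.1 h2 h3⟩
    · intro h2
      exact ⟨hx, h1.2 fun h3 => (h2 ⟨hx, h3⟩).2⟩
  · intro x hx y hy
    have hlt : box y < n := by rw [hn]; exact lt_add_one_iff'.2 hy
    have hyn : y < n := (lt_box y).trans hlt
    have hxa := hWa x hx
    constructor
    · rintro ⟨_, h2⟩ z ⟨_, h3, h4⟩
      exact ⟨h3, (hWa z h3).t hlt (h4 y hyn hlt h2)⟩
    · intro h
      refine ⟨hx, ?_⟩
      by_contra hcon
      -- the hypotheses of a successor
      have hD : D0 (fun v : Ctx N => T (v 0) ∨ ∃ i, i < n ∧ (box i < n ∧ (MemC (box i) x ∧ v 0 = box i))) := by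
        refine D0.or hTD (D0.bex (Tm.const n) (D0.and ?_ (D0.and ?_ ?_)))
        · exact D0.lt (Tm.box (Tm.var 0)) (Tm.const n)
        · exact MemC_D0 (Tm.box (Tm.var 0)) (Tm.const x)
        · exact D0.eq (Tm.var 1) (Tm.box (Tm.var 0))
      have hcs : ¬ Der (fun z => (T z ∨ ∃ i, i < n ∧ (box i < n ∧ (MemC (box i) x ∧ z = box i))) ∨ z = neg y) 0 := by
        intro h1
        have h2 := Der.byc (H := fun z => T z ∨ ∃ i, i < n ∧ (box i < n ∧ (MemC (box i) x ∧ z = box i))) hD.S1 h1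
        have h3 := Der.box (H := fun z => T z ∨ ∃ i, i < n ∧ (box i < n ∧ (MemC (box i) x ∧ z = box i))) hD.S1 (by
          rintro z (h4 | ⟨i, _, _, _, h4⟩)
          · exact hTb z h4
          · exact ⟨i, h4⟩) h2
        refine hcon ((hxa.iff hlt).2 (Der.mono ?_ h3))
        rintro z (h4 | ⟨i, _, h5, h6, h4⟩)
        · exact Or.inl h4
        · exact Or.inr ⟨box i, h5, Or.inl ⟨h6, h4⟩⟩
      obtain ⟨d, hdb, hd⟩ := hatom _ (S1.or hD.S1 (D0.eq (Tm.var 0) (Tm.const (neg y))).S1) hcs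
      have hdW : d ∈ W := hWi d hdb (hd.mono fun z hz => Or.inl (Or.inl hz))
      have hR : Rb n x d := by
        intro i hi hbi hm
        rw [hd.iff hbi]
        exact Der.hyp (Or.inl (Or.inl (Or.inr ⟨i, hi, hbi, hm, rfl⟩)))
      have h5 : MemC y d := (h d ⟨hx, hdW, hR⟩).2
      exact hd.not ((Der.hyp (Or.inl (Or.inr rfl))).mp (At.pos hyn h5))

end Pool.Agent.T2H95.MS
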